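import Pool.Agent.W425.ND.Stm

set_option autoImplicit false

namespace Pool.Agent.W414.ND

open Pool.Agent.W425.ND

theorem k1 : TaskK1 := by
  classical
  intro r N v m c ⟨l, hl0, hlm, hlc⟩ hm
  have hm0 : (0 : ℝ) < m := by
    have : 0 < m := by omega
    exact_mod_cast this
  set y : Fin r → Fin N → ℝ := fun j i => (v j i : ℝ) with hy
  have hx : (fun i => (c i : ℝ) / m) ∈ convexHull ℝ (Set.range y) := by
    have h := (convex_convexHull ℝ (Set.range y)).sum_mem (t := Finset.univ) (w := fun j => l j / m)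
      (z := y) (fun j _ => div_nonneg (hl0 j) hm0.le)
      (by rw [← Finset.sum_div, hlm, div_self hm0.ne'])
      (fun j _ => subset_convexHull ℝ _ ⟨j, rfl⟩)
    convert h using 1
    funext i
    rw [Finset.sum_apply]
    simp only [Pi.smul_apply, smul_eq_mul, hy]
    rw [← hlc i, Finset.sum_div]
    exact Finset.sum_congr rfl fun j _ => by ring
  obtain ⟨ι, hι, z, w, hz, hind, hw, hw1, hwx⟩ := eq_pos_convex_span_of_mem_convexHull hx
  have hcard : Fintype.card ι ≤ N + 1 := by
    have h1 := hind.card_le_finrank_succ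
    have h2 : Module.finrank ℝ (vectorSpan ℝ (Set.range z)) ≤ Module.finrank ℝ (Fin N → ℝ) :=
      Submodule.finrank_le _
    rw [Module.finrank_fin_fun] at h2
    omega
  obtain ⟨i0, hi0⟩ : ∃ i0, 1 ≤ (m : ℝ) * w i0 := by
    by_contra hc
    push Not at hc
    have hne : (Finset.univ : Finset ι).Nonempty := by
      by_contra hne
      rw [Finset.not_nonempty_iff_eq_empty] at hne
      rw [hne, Finset.sum_empty] at hw1
      norm_num at hw1
    have h1 : ∑ i, (m : ℝ) * w i < ∑ _i : ι, (1 : ℝ) :=
      Finset.sum_lt_sum_of_nonempty hne fun i _ => hc i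
    rw [← Finset.mul_sum, hw1, mul_one, Finset.sum_const, Finset.card_univ, nsmul_eq_mul,
      mul_one] at h1
    have h2 : m < Fintype.card ι := by exact_mod_cast h1
    omega
  have hz' : ∀ i, ∃ j, y j = z i := fun i => hz ⟨i, rfl⟩
  choose j hj using hz'
  set L : Fin r → ℝ := fun k => ∑ i, if j i = k then (m : ℝ) * w i else 0 with hL
  have hLnn : ∀ k, 0 ≤ L k := fun k => Finset.sum_nonneg fun i _ => by
    split_ifs
    · exact mul_nonneg hm0.le (hw i).le
    · exact le_rfl
  have hL0 : 1 ≤ L (j i0) := by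
    refine hi0.trans ?_
    have : (if j i0 = j i0 then (m : ℝ) * w i0 else 0) ≤ L (j i0) :=
      Finset.single_le_sum (f := fun i => if j i = j i0 then (m : ℝ) * w i else 0)
        (fun i _ => by
          split_ifs
          · exact mul_nonneg hm0.le (hw i).le
          · exact le_rfl) (Finset.mem_univ i0)
    rwa [if_pos rfl] at this
  have hLs : ∑ k, L k = m := by
    rw [hL, Finset.sum_comm]
    simp only [Finset.sum_ite_eq, Finset.mem_univ, if_true]
    rw [← Finset.mul_sum, hw1, mul_one]
  have hLc : ∀ i, ∑ k, L k * (v k i : ℝ) = c i := by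
    intro i
    have h1 := congrFun hwx i
    rw [Finset.sum_apply] at h1
    have h2 : (c i : ℝ) = ∑ a, (m : ℝ) * w a * z a i := by
      have : (c i : ℝ) = m * ((c i : ℝ) / m) := by field_simp
      rw [this, ← h1, Finset.mul_sum]
      exact Finset.sum_congr rfl fun a _ => by
        simp only [Pi.smul_apply, smul_eq_mul]
        ring
    rw [h2]
    simp only [hL, Finset.sum_mul]
    rw [Finset.sum_comm]
    refine Finset.sum_congr rfl fun a _ => ?_
    simp only [ite_mul, zero_mul, Finset.sum_ite_eq, Finset.mem_univ, if_true]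
    rw [← hj a]
  set L' : Fin r → ℝ := fun k => L k - if k = j i0 then 1 else 0 with hL'
  have hL'nn : ∀ k, 0 ≤ L' k := by
    intro k
    simp only [hL']
    split_ifs with h
    · rw [h]; linarith
    · rw [sub_zero]; exact hLnn k
  have hL'c : ∀ i, ∑ k, L' k * (v k i : ℝ) = c i - v (j i0) i := by
    intro i
    simp only [hL', sub_mul, Finset.sum_sub_distrib, hLc, ite_mul, one_mul, zero_mul,
      Finset.sum_ite_eq', Finset.mem_univ, if_true]
  have hle : ∀ i, v (j i0) i ≤ c i := by
    intro i
    have h1 : 0 ≤ ∑ k, L' k * (v k i : ℝ) :=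
      Finset.sum_nonneg fun k _ => mul_nonneg (hL'nn k) (Nat.cast_nonneg _)
    rw [hL'c] at h1
    have h2 : (v (j i0) i : ℝ) ≤ c i := by linarith
    exact_mod_cast h2
  refine ⟨j i0, Finsupp.equivFunOnFinite.symm fun i => c i - v (j i0) i, ?_, L', hL'nn, ?_, ?_⟩
  · intro i
    have := hle i
    simp only [Finsupp.equivFunOnFinite_symm_apply_apply]
    omega
  · simp only [hL', Finset.sum_sub_distrib, hLs, Finset.sum_ite_eq', Finset.mem_univ, if_true]
    rw [Nat.cast_sub (by omega), Nat.cast_one]
  · intro i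
    rw [hL'c i]
    simp only [Finsupp.equivFunOnFinite_symm_apply_apply]
    rw [Nat.cast_sub (hle i)]

end Pool.Agent.W414.ND
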